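import Pool.Agent.Mg.F9d0111.G6d2056

namespace Pool.Agent.Results.MP_9d0111_an.GenericMetric

open Pool.Agent.MP9d0111
open scoped ENNReal

/-- For every sofic approximation and every action on a compact metrizable space, the generic
continuous pseudometric is a metric that attains, for all `0 < p ≤ ∞` at once, the infimum
defining the `p`-metric mean dimension, and the value is the sofic metric mean dimension. -/
theorem result {Γ : Type} [Group Γ] [Countable Γ] (d : ℕ → ℕ)
    (σ : ∀ i, Γ → Equiv.Perm (Fin (d i))) (hσ : IsSofic d σ)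
    (X : Type) [TopologicalSpace X] [CompactSpace X] [TopologicalSpace.MetrizableSpace X]
    [MulAction Γ X] [ContinuousConstSMul Γ X] :
    ∃ G : Set (PM X), IsGδ G ∧ Dense G ∧ ∀ θ ∈ G, (∀ x y, θ.1 (x, y) = 0 → x = y) ∧
      ∀ p : ℝ≥0∞, 0 < p →
        mdim d σ p θ.1 = mdimM d σ p X ∧ mdim d σ p θ.1 = mdimM d σ ⊤ X := by
  letI := TopologicalSpace.metrizableSpaceMetric X
  exact generic_main hσ

end Pool.Agent.Results.MP_9d0111_an.GenericMetric
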