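import Pool.Agent.Mg.F9d0111.G44ef43

namespace Pool.Agent.Results.MP_9d0111_an.Spectrum

open Pool.Agent.MP9d0111
open scoped ENNReal

/-- The functions `p ↦ mdim_{Σ,p}(ρ)` with values in `[0, ∞]` are exactly the nondecreasing
functions `g` on `[1, ∞]` with `g p / p` nonincreasing on `[1, ∞)`. -/
theorem result {Γ : Type} [Group Γ] [Countable Γ] [Infinite Γ] (d : ℕ → ℕ)
    (σ : ∀ i, Γ → Equiv.Perm (Fin (d i))) (hσ : IsSofic d σ) (g : ℝ≥0∞ → ℝ≥0∞) :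
    (∃ (X : Type) (_ : TopologicalSpace X) (_ : CompactSpace X)
      (_ : TopologicalSpace.MetrizableSpace X) (_ : MulAction Γ X) (_ : ContinuousConstSMul Γ X)
      (ρ : PM X), DynGen Γ ρ.1 ∧ ∀ p : ℝ≥0∞, 1 ≤ p → mdim d σ p ρ.1 = (g p : EReal)) ↔
    MonotoneOn g (Set.Ici 1) ∧ AntitoneOn (fun p => g p / p) (Set.Ico 1 ⊤) := by
  constructor
  · rintro ⟨X, _, _, _, _, _, ρ, -, h⟩
    exact nec hσ.1 ρ h
  · rintro ⟨h1, h2⟩
    obtain ⟨n, T, r, hr, h⟩ := suff hσ h1 h2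
    exact ⟨XX Γ n, inferInstance, inferInstance, inferInstance, inferInstance, inferInstance,
      rho n T hr, rh_gen hr, h⟩

end Pool.Agent.Results.MP_9d0111_an.Spectrum
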